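import Mathlib

/-!
# The van den Berg - Kesten inequality for exponentials of costs

Finite index set `ι`, independent variables `u e ∈ [0, ∞]`, two families `A`, `B` of finite subsets.
The expectation of the maximum of `∏ α u * ∏ β u` over DISJOINT pairs `α ∈ A`, `β ∈ B` is at most the
product of the expectations of the two maxima.  Proof: let `v` be an independent copy, and let `β` use
`v` at the places of `S` (where disjointness is not required); adding one place to `S` does not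
decrease the expectation.
-/

set_option autoImplicit false
set_option linter.unusedSectionVars false
set_option linter.unusedVariables false

namespace Pool.Agent.Helper28.PG

open MeasureTheory ProbabilityTheory ENNReal

section Core

variable {ι : Type*} [Fintype ι] [DecidableEq ι]

/-- the mixed weight at the places of `S` -/
def mix (S : Finset ι) (w : ι → ℝ≥0∞ × ℝ≥0∞) (e : ι) : ℝ≥0∞ := if e ∈ S then (w e).2 else (w e).1

/-- the maximum over the pairs which are disjoint off `S` -/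
noncomputable def M (A B : Set (Finset ι)) (S : Finset ι) (w : ι → ℝ≥0∞ × ℝ≥0∞) : ℝ≥0∞ :=
  ⨆ α ∈ A, ⨆ β ∈ B, ⨆ (_ : α ∩ β ⊆ S), (∏ e ∈ α, (w e).1) * ∏ e ∈ β, mix S w e

/-- the part with `e₀ ∈ α` -/
noncomputable def MV (A B : Set (Finset ι)) (S : Finset ι) (e₀ : ι) (w : ι → ℝ≥0∞ × ℝ≥0∞) :
    ℝ≥0∞ :=
  ⨆ α ∈ A, ⨆ β ∈ B, ⨆ (_ : α ∩ β ⊆ S), ⨆ (_ : e₀ ∈ α),
    (∏ e ∈ α.erase e₀, (w e).1) * ∏ e ∈ β.erase e₀, mix S w e

/-- the part with `e₀ ∈ β` -/
noncomputable def MW (A B : Set (Finset ι)) (S : Finset ι) (e₀ : ι) (w : ι → ℝ≥0∞ × ℝ≥0∞) :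
    ℝ≥0∞ :=
  ⨆ α ∈ A, ⨆ β ∈ B, ⨆ (_ : α ∩ β ⊆ S), ⨆ (_ : e₀ ∈ β),
    (∏ e ∈ α.erase e₀, (w e).1) * ∏ e ∈ β.erase e₀, mix S w e

/-- exchange the two values at `e₀` -/
def sw (e₀ : ι) (w : ι → ℝ≥0∞ × ℝ≥0∞) (e : ι) : ℝ≥0∞ × ℝ≥0∞ :=
  if e = e₀ then (w e).swap else w e

theorem measurable_mix (S : Finset ι) (e : ι) :
    Measurable fun w : ι → ℝ≥0∞ × ℝ≥0∞ => mix S w e := by
  unfold mix
  split
  · exact measurable_snd.comp (measurable_pi_apply e)
  · exact measurable_fst.comp (measurable_pi_apply e)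

theorem measurable_term (S α β : Finset ι) :
    Measurable fun w : ι → ℝ≥0∞ × ℝ≥0∞ => (∏ e ∈ α, (w e).1) * ∏ e ∈ β, mix S w e := by
  refine Measurable.mul ?_ ?_
  · exact Finset.measurable_prod _ fun e _ => measurable_fst.comp (measurable_pi_apply e)
  · exact Finset.measurable_prod _ fun e _ => measurable_mix S e

theorem measurable_M (A B : Set (Finset ι)) (S : Finset ι) : Measurable (M A B S) := by
  unfold M
  exact Measurable.iSup fun α => Measurable.iSup fun _ => Measurable.iSup fun β =>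
    Measurable.iSup fun _ => Measurable.iSup fun _ => measurable_term S α β

theorem measurable_MV (A B : Set (Finset ι)) (S : Finset ι) (e₀ : ι) :
    Measurable (MV A B S e₀) := by
  unfold MV
  exact Measurable.iSup fun α => Measurable.iSup fun _ => Measurable.iSup fun β =>
    Measurable.iSup fun _ => Measurable.iSup fun _ => Measurable.iSup fun _ =>
    measurable_term S _ _

theorem measurable_MW (A B : Set (Finset ι)) (S : Finset ι) (e₀ : ι) :
    Measurable (MW A B S e₀) := by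
  unfold MW
  exact Measurable.iSup fun α => Measurable.iSup fun _ => Measurable.iSup fun β =>
    Measurable.iSup fun _ => Measurable.iSup fun _ => Measurable.iSup fun _ =>
    measurable_term S _ _

theorem prod_erase_sw (S α : Finset ι) (e₀ : ι) (w : ι → ℝ≥0∞ × ℝ≥0∞) :
    ∏ e ∈ α.erase e₀, (sw e₀ w e).1 = ∏ e ∈ α.erase e₀, (w e).1 := by
  refine Finset.prod_congr rfl fun e he => ?_
  rw [sw, if_neg (Finset.ne_of_mem_erase he)]

theorem prod_erase_mix_sw (S α : Finset ι) (e₀ : ι) (w : ι → ℝ≥0∞ × ℝ≥0∞) :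
    ∏ e ∈ α.erase e₀, mix S (sw e₀ w) e = ∏ e ∈ α.erase e₀, mix S w e := by
  refine Finset.prod_congr rfl fun e he => ?_
  rw [mix, mix, sw, if_neg (Finset.ne_of_mem_erase he)]

theorem MV_sw (A B : Set (Finset ι)) (S : Finset ι) (e₀ : ι) (w : ι → ℝ≥0∞ × ℝ≥0∞) :
    MV A B S e₀ (sw e₀ w) = MV A B S e₀ w := by
  unfold MV
  simp only [prod_erase_sw S, prod_erase_mix_sw]

theorem MW_sw (A B : Set (Finset ι)) (S : Finset ι) (e₀ : ι) (w : ι → ℝ≥0∞ × ℝ≥0∞) :
    MW A B S e₀ (sw e₀ w) = MW A B S e₀ w := by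
  unfold MW
  simp only [prod_erase_sw S, prod_erase_mix_sw]

/-- off `e₀` the mixed weights for `S` and `insert e₀ S` agree -/
theorem mix_insert_of_ne (S : Finset ι) {e₀ e : ι} (he : e ≠ e₀) (w : ι → ℝ≥0∞ × ℝ≥0∞) :
    mix (insert e₀ S) w e = mix S w e := by
  unfold mix
  simp [Finset.mem_insert, he]

theorem prod_mix_insert (S β : Finset ι) {e₀ : ι} (he : e₀ ∉ β) (w : ι → ℝ≥0∞ × ℝ≥0∞) :
    ∏ e ∈ β, mix (insert e₀ S) w e = ∏ e ∈ β, mix S w e :=
  Finset.prod_congr rfl fun e hm => mix_insert_of_ne S (fun h => he (by rw [← h]; exact hm)) w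

/-- a term is at most the maximum -/
theorem le_M {A B : Set (Finset ι)} {S α β : Finset ι} (hα : α ∈ A) (hβ : β ∈ B)
    (h : α ∩ β ⊆ S) (w : ι → ℝ≥0∞ × ℝ≥0∞) :
    (∏ e ∈ α, (w e).1) * ∏ e ∈ β, mix S w e ≤ M A B S w := by
  unfold M
  exact le_iSup₂_of_le α hα (le_iSup₂_of_le β hβ (le_iSup_of_le h le_rfl))

/-- `W (w e₀).2` is at most the maximum for `insert e₀ S` -/
theorem MW_mul_le (A B : Set (Finset ι)) (S : Finset ι) {e₀ : ι} (he₀ : e₀ ∉ S)
    (w : ι → ℝ≥0∞ × ℝ≥0∞) : MW A B S e₀ w * (w e₀).2 ≤ M A B (insert e₀ S) w := by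
  unfold MW
  simp only [ENNReal.iSup_mul]
  refine iSup₂_le fun α hα => iSup₂_le fun β hβ => iSup_le fun h => iSup_le fun hb => ?_
  have ha : e₀ ∉ α := fun ha => he₀ (h (Finset.mem_inter.2 ⟨ha, hb⟩))
  refine le_trans (le_of_eq ?_) (le_M (S := insert e₀ S) hα hβ
    (h.trans (Finset.subset_insert _ _)) w)
  rw [Finset.erase_eq_of_notMem ha, mul_assoc, ← Finset.mul_prod_erase β _ hb]
  congr 1
  rw [mul_comm]
  congr 1
  · unfold mix
    simp
  · exact Finset.prod_congr rfl fun e he => (mix_insert_of_ne S (Finset.ne_of_mem_erase he) w).symm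

/-- `V (w e₀).1` is at most the maximum for `insert e₀ S` -/
theorem MV_mul_le (A B : Set (Finset ι)) (S : Finset ι) {e₀ : ι} (he₀ : e₀ ∉ S)
    (w : ι → ℝ≥0∞ × ℝ≥0∞) : MV A B S e₀ w * (w e₀).1 ≤ M A B (insert e₀ S) w := by
  unfold MV
  simp only [ENNReal.iSup_mul]
  refine iSup₂_le fun α hα => iSup₂_le fun β hβ => iSup_le fun h => iSup_le fun ha => ?_
  have hb : e₀ ∉ β := fun hb => he₀ (h (Finset.mem_inter.2 ⟨ha, hb⟩))
  refine le_trans (le_of_eq ?_) (le_M (S := insert e₀ S) hα hβ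
    (h.trans (Finset.subset_insert _ _)) w)
  rw [Finset.erase_eq_of_notMem hb, prod_mix_insert S β hb, ← Finset.mul_prod_erase α _ ha]
  ring

/-- where `W ≤ V`: pointwise -/
theorem M_le_of_le (A B : Set (Finset ι)) (S : Finset ι) {e₀ : ι} (he₀ : e₀ ∉ S)
    (w : ι → ℝ≥0∞ × ℝ≥0∞) (h : MW A B S e₀ w ≤ MV A B S e₀ w) :
    M A B S w ≤ M A B (insert e₀ S) w := by
  conv_lhs => unfold M
  refine iSup₂_le fun α hα => iSup₂_le fun β hβ => iSup_le fun hd => ?_
  by_cases hb : e₀ ∈ β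
  · have ha : e₀ ∉ α := fun ha => he₀ (hd (Finset.mem_inter.2 ⟨ha, hb⟩))
    refine le_trans ?_ (MV_mul_le A B S he₀ w)
    refine le_trans ?_ (mul_le_mul_left h _)
    have h1 : (∏ e ∈ α.erase e₀, (w e).1) * ∏ e ∈ β.erase e₀, mix S w e ≤ MW A B S e₀ w := by
      unfold MW
      exact le_iSup₂_of_le α hα (le_iSup₂_of_le β hβ (le_iSup_of_le hd (le_iSup_of_le hb le_rfl)))
    refine le_trans (le_of_eq ?_) (mul_le_mul_left h1 _)
    rw [Finset.erase_eq_of_notMem ha, mul_assoc, ← Finset.mul_prod_erase β _ hb]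
    congr 1
    rw [mul_comm]
    congr 1
    unfold mix
    simp [he₀]
  · rw [← prod_mix_insert S β hb w]
    exact le_M hα hβ (hd.trans (Finset.subset_insert _ _)) w

/-- where `V ≤ W`: after the exchange -/
theorem M_sw_le_of_le (A B : Set (Finset ι)) (S : Finset ι) {e₀ : ι} (he₀ : e₀ ∉ S)
    (w : ι → ℝ≥0∞ × ℝ≥0∞) (h : MV A B S e₀ w ≤ MW A B S e₀ w) :
    M A B S (sw e₀ w) ≤ M A B (insert e₀ S) w := by
  have hsw1 : ∀ e, e ≠ e₀ → sw e₀ w e = w e := fun e he => by rw [sw, if_neg he]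
  have hsw2 : sw e₀ w e₀ = (w e₀).swap := by rw [sw, if_pos rfl]
  conv_lhs => unfold M
  refine iSup₂_le fun α hα => iSup₂_le fun β hβ => iSup_le fun hd => ?_
  by_cases hb : e₀ ∈ β
  · have ha : e₀ ∉ α := fun ha => he₀ (hd (Finset.mem_inter.2 ⟨ha, hb⟩))
    refine le_trans ?_ (MW_mul_le A B S he₀ w)
    have h1 : (∏ e ∈ α.erase e₀, (w e).1) * ∏ e ∈ β.erase e₀, mix S w e ≤ MW A B S e₀ w := by
      unfold MW
      exact le_iSup₂_of_le α hα (le_iSup₂_of_le β hβ (le_iSup_of_le hd (le_iSup_of_le hb le_rfl)))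
    refine le_trans (le_of_eq ?_) (mul_le_mul_left h1 _)
    rw [← prod_erase_sw S α e₀ w, ← prod_erase_mix_sw S β e₀ w,
      Finset.erase_eq_of_notMem ha, mul_assoc, ← Finset.mul_prod_erase β _ hb]
    congr 1
    rw [mul_comm]
    congr 1
    unfold mix
    rw [if_neg he₀, hsw2]
    rfl
  by_cases ha : e₀ ∈ α
  · refine le_trans ?_ (MW_mul_le A B S he₀ w)
    refine le_trans ?_ (mul_le_mul_left h _)
    have h1 : (∏ e ∈ α.erase e₀, (w e).1) * ∏ e ∈ β.erase e₀, mix S w e ≤ MV A B S e₀ w := by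
      unfold MV
      exact le_iSup₂_of_le α hα (le_iSup₂_of_le β hβ (le_iSup_of_le hd (le_iSup_of_le ha le_rfl)))
    refine le_trans (le_of_eq ?_) (mul_le_mul_left h1 _)
    rw [← prod_erase_sw S α e₀ w, ← prod_erase_mix_sw S β e₀ w,
      Finset.erase_eq_of_notMem hb, ← Finset.mul_prod_erase α _ ha, hsw2]
    simp only [Prod.fst_swap]
    ring
  · refine le_trans (le_of_eq ?_) (le_M (S := insert e₀ S) hα hβ
      (hd.trans (Finset.subset_insert _ _)) w)
    congr 1
    · exact Finset.prod_congr rfl fun e he => by rw [hsw1 e (fun h => ha (h ▸ he))]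
    · rw [prod_mix_insert S β hb]
      refine Finset.prod_congr rfl fun e he => ?_
      unfold mix
      rw [hsw1 e (fun h => hb (h ▸ he))]

variable (ν : ι → Measure ℝ≥0∞) [∀ i, IsProbabilityMeasure (ν i)]

theorem sw_mp (e₀ : ι) : MeasurePreserving (sw e₀)
    (Measure.pi fun i => (ν i).prod (ν i)) (Measure.pi fun i => (ν i).prod (ν i)) := by
  have h := measurePreserving_pi (fun i => (ν i).prod (ν i)) (fun i => (ν i).prod (ν i))
    (f := fun e => if e = e₀ then Prod.swap else id) (by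
      intro i
      by_cases hi : i = e₀
      · simp only [hi, if_true]
        exact Measure.measurePreserving_swap
      · simp only [hi, if_false]
        exact MeasurePreserving.id _)
  convert h using 1
  funext w e
  unfold sw
  by_cases he : e = e₀ <;> simp [he]

/-- one step -/
theorem step (A B : Set (Finset ι)) (S : Finset ι) {e₀ : ι} (he₀ : e₀ ∉ S) :
    ∫⁻ w, M A B S w ∂(Measure.pi fun i => (ν i).prod (ν i)) ≤
      ∫⁻ w, M A B (insert e₀ S) w ∂(Measure.pi fun i => (ν i).prod (ν i)) := by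
  set Q := Measure.pi fun i => (ν i).prod (ν i) with hQ
  set G : Set (ι → ℝ≥0∞ × ℝ≥0∞) := {w | MW A B S e₀ w ≤ MV A B S e₀ w} with hG
  have hGm : MeasurableSet G :=
    measurableSet_le (measurable_MW A B S e₀) (measurable_MV A B S e₀)
  rw [← lintegral_add_compl _ hGm, ← lintegral_add_compl (fun w => M A B (insert e₀ S) w) hGm]
  refine add_le_add ?_ ?_
  · exact setLIntegral_mono (measurable_M A B _) fun w hw => M_le_of_le A B S he₀ w hw
  · have hmp := sw_mp ν e₀
    have hpre : sw e₀ ⁻¹' Gᶜ = Gᶜ := by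
      ext w
      simp only [hG, Set.mem_preimage, Set.mem_compl_iff, Set.mem_ofPred_eq, MV_sw, MW_sw]
    have h1 : ∫⁻ w in Gᶜ, M A B S w ∂Q = ∫⁻ w in Gᶜ, M A B S (sw e₀ w) ∂Q := by
      have := hmp.setLIntegral_comp_preimage hGm.compl (measurable_M A B S)
      rw [hpre] at this
      exact this.symm
    rw [h1]
    refine setLIntegral_mono (measurable_M A B _) fun w hw => ?_
    refine M_sw_le_of_le A B S he₀ w ?_
    have : ¬ MW A B S e₀ w ≤ MV A B S e₀ w := hw
    exact (not_le.1 this).le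

theorem all_steps (A B : Set (Finset ι)) (S : Finset ι) :
    ∫⁻ w, M A B ∅ w ∂(Measure.pi fun i => (ν i).prod (ν i)) ≤
      ∫⁻ w, M A B S w ∂(Measure.pi fun i => (ν i).prod (ν i)) := by
  induction S using Finset.induction_on with
  | empty => exact le_rfl
  | insert e S he ih => exact ih.trans (step ν A B S he)

/-- the best product over a family -/
noncomputable def best (A : Set (Finset ι)) (u : ι → ℝ≥0∞) : ℝ≥0∞ := ⨆ α ∈ A, ∏ e ∈ α, u e

theorem measurable_best (A : Set (Finset ι)) : Measurable (best A) := by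
  unfold best
  exact Measurable.iSup fun α => Measurable.iSup fun _ =>
    Finset.measurable_prod _ fun e _ => measurable_pi_apply e

/-- **BK for exponentials of costs**, product measure on a finite index set. -/
theorem bk_pi (A B : Set (Finset ι)) :
    ∫⁻ u, (⨆ α ∈ A, ⨆ β ∈ B, ⨆ (_ : Disjoint α β), (∏ e ∈ α, u e) * ∏ e ∈ β, u e)
        ∂(Measure.pi ν) ≤
      (∫⁻ u, best A u ∂(Measure.pi ν)) * ∫⁻ u, best B u ∂(Measure.pi ν) := by
  have hmp := measurePreserving_arrowProdEquivProdArrow ℝ≥0∞ ℝ≥0∞ ι ν ν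
  have hfst : MeasurePreserving (fun (w : ι → ℝ≥0∞ × ℝ≥0∞) (e : ι) => (w e).1)
      (Measure.pi fun i => (ν i).prod (ν i)) (Measure.pi ν) :=
    measurePreserving_fst.comp hmp
  have h1 : ∫⁻ u, (⨆ α ∈ A, ⨆ β ∈ B, ⨆ (_ : Disjoint α β), (∏ e ∈ α, u e) * ∏ e ∈ β, u e)
        ∂(Measure.pi ν) =
      ∫⁻ w, M A B ∅ w ∂(Measure.pi fun i => (ν i).prod (ν i)) := by
    rw [← hfst.lintegral_comp]
    · refine lintegral_congr fun w => ?_
      unfold M mix
      simp only [Finset.notMem_empty, if_false, Finset.subset_empty, Finset.disjoint_iff_inter_eq_empty]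
    · exact Measurable.iSup fun α => Measurable.iSup fun _ => Measurable.iSup fun β =>
        Measurable.iSup fun _ => Measurable.iSup fun _ => Measurable.mul
          (Finset.measurable_prod _ fun e _ => measurable_pi_apply e)
          (Finset.measurable_prod _ fun e _ => measurable_pi_apply e)
  rw [h1]
  refine (all_steps ν A B Finset.univ).trans (le_of_eq ?_)
  have h2 : ∀ w : ι → ℝ≥0∞ × ℝ≥0∞, M A B Finset.univ w =
      best A (fun e => (w e).1) * best B (fun e => (w e).2) := by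
    intro w
    unfold M mix best
    simp only [Finset.mem_univ, if_true, Finset.subset_univ, iSup_pos, ENNReal.iSup_mul,
      ENNReal.mul_iSup]
    rw [iSup₂_comm]
  simp_rw [h2]
  have h3 : ∫⁻ w : ι → ℝ≥0∞ × ℝ≥0∞, best A (fun e => (w e).1) * best B (fun e => (w e).2)
      ∂(Measure.pi fun i => (ν i).prod (ν i)) =
      ∫⁻ p : (ι → ℝ≥0∞) × (ι → ℝ≥0∞), best A p.1 * best B p.2
        ∂((Measure.pi ν).prod (Measure.pi ν)) := by
    rw [← hmp.lintegral_comp]
    · rfl
    · exact ((measurable_best A).comp measurable_fst).mul ((measurable_best B).comp measurable_snd)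
  rw [h3, lintegral_prod_mul (measurable_best A).aemeasurable (measurable_best B).aemeasurable]

end Core

section General

variable {ι : Type*} [DecidableEq ι] {Ω : Type*} [MeasurableSpace Ω] {P : Measure Ω}

/-- the maximum over disjoint pairs -/
noncomputable def best2 (A B : Set (Finset ι)) (u : ι → ℝ≥0∞) : ℝ≥0∞ :=
  ⨆ α ∈ A, ⨆ β ∈ B, ⨆ (_ : Disjoint α β), (∏ e ∈ α, u e) * ∏ e ∈ β, u e

/-- the best product over a family (any index set) -/
noncomputable def best1 (A : Set (Finset ι)) (u : ι → ℝ≥0∞) : ℝ≥0∞ := ⨆ α ∈ A, ∏ e ∈ α, u e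

theorem measurable_best1 [Countable ι] (A : Set (Finset ι)) : Measurable (best1 A) := by
  unfold best1
  exact Measurable.iSup fun α => Measurable.iSup fun _ =>
    Finset.measurable_prod _ fun e _ => measurable_pi_apply e

theorem measurable_best2 [Countable ι] (A B : Set (Finset ι)) : Measurable (best2 A B) := by
  unfold best2
  exact Measurable.iSup fun α => Measurable.iSup fun _ => Measurable.iSup fun β =>
    Measurable.iSup fun _ => Measurable.iSup fun _ => Measurable.mul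
      (Finset.measurable_prod _ fun e _ => measurable_pi_apply e)
      (Finset.measurable_prod _ fun e _ => measurable_pi_apply e)

/-- **BK**, families of subsets of a finite set `T`. -/
theorem bk_fin (U : ι → Ω → ℝ≥0∞) (hU : ∀ i, Measurable (U i)) (hind : iIndepFun U P)
    [IsProbabilityMeasure P] (T : Finset ι) (A B : Set (Finset ι))
    (hA : ∀ α ∈ A, α ⊆ T) (hB : ∀ β ∈ B, β ⊆ T) :
    ∫⁻ ω, best2 A B (fun e => U e ω) ∂P ≤
      (∫⁻ ω, best1 A (fun e => U e ω) ∂P) * ∫⁻ ω, best1 B (fun e => U e ω) ∂P := by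
  set ν : T → Measure ℝ≥0∞ := fun i => P.map (U i) with hν
  have hprob : ∀ i, IsProbabilityMeasure (ν i) := fun i =>
    Measure.isProbabilityMeasure_map (hU i).aemeasurable
  have hind' : iIndepFun (fun (i : T) => U i) P := hind.precomp Subtype.val_injective
  have hlaw : P.map (fun ω (i : T) => U i ω) = Measure.pi ν :=
    (iIndepFun_iff_map_fun_eq_pi_map (f := fun i : T => U i)
      (fun i => (hU i).aemeasurable)).1 hind'
  have hmp : MeasurePreserving (fun ω (i : T) => U i ω) P (Measure.pi ν) :=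
    ⟨measurable_pi_lambda _ fun i => hU i, hlaw⟩
  set A' : Set (Finset T) := {a | a.map (Function.Embedding.subtype _) ∈ A} with hA'
  set B' : Set (Finset T) := {b | b.map (Function.Embedding.subtype _) ∈ B} with hB'
  have key := bk_pi ν A' B'
  have hpr : ∀ (a : Finset T) (u : ι → ℝ≥0∞),
      ∏ e ∈ a.map (Function.Embedding.subtype _), u e = ∏ e ∈ a, u e := by
    intro a u
    rw [Finset.prod_map]
    rfl
  have hrep : ∀ α : Finset ι, α ⊆ T →
      ∃ a : Finset T, a.map (Function.Embedding.subtype _) = α := by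
    intro α hα
    refine ⟨α.subtype (· ∈ T), ?_⟩
    rw [Finset.subtype_map]
    exact Finset.filter_true_of_mem fun x hx => hα hx
  have e1 : ∀ (C : Set (Finset ι)), (∀ γ ∈ C, γ ⊆ T) → ∀ u : ι → ℝ≥0∞,
      best1 C u = best {a : Finset T | a.map (Function.Embedding.subtype _) ∈ C}
        (fun i : T => u i) := by
    intro C hC u
    apply le_antisymm
    · unfold best1 best
      refine iSup₂_le fun γ hγ => ?_
      obtain ⟨a, rfl⟩ := hrep γ (hC γ hγ)
      rw [hpr]
      exact le_iSup₂_of_le a hγ le_rfl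
    · unfold best1 best
      refine iSup₂_le fun a ha => ?_
      rw [← hpr a u]
      exact le_iSup₂_of_le _ ha le_rfl
  have e2 : ∀ u : ι → ℝ≥0∞, best2 A B u ≤
      ⨆ α ∈ A', ⨆ β ∈ B', ⨆ (_ : Disjoint α β), (∏ e ∈ α, u e) * ∏ e ∈ β, u e := by
    intro u
    unfold best2
    refine iSup₂_le fun α hα => iSup₂_le fun β hβ => iSup_le fun hd => ?_
    obtain ⟨a, rfl⟩ := hrep α (hA α hα)
    obtain ⟨b, rfl⟩ := hrep β (hB β hβ)
    rw [hpr, hpr]
    exact le_iSup₂_of_le a hα (le_iSup₂_of_le b hβ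
      (le_iSup_of_le ((Finset.disjoint_map _).1 hd) le_rfl))
  have hm2 : Measurable fun u : T → ℝ≥0∞ =>
      ⨆ α ∈ A', ⨆ β ∈ B', ⨆ (_ : Disjoint α β), (∏ e ∈ α, u e) * ∏ e ∈ β, u e := by
    exact Measurable.iSup fun α => Measurable.iSup fun _ => Measurable.iSup fun β =>
      Measurable.iSup fun _ => Measurable.iSup fun _ => Measurable.mul
        (Finset.measurable_prod _ fun e _ => measurable_pi_apply e)
        (Finset.measurable_prod _ fun e _ => measurable_pi_apply e)
  rw [← hmp.lintegral_comp hm2, ← hmp.lintegral_comp (measurable_best A'),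
    ← hmp.lintegral_comp (measurable_best B')] at key
  calc ∫⁻ ω, best2 A B (fun e => U e ω) ∂P
      ≤ ∫⁻ ω, (⨆ α ∈ A', ⨆ β ∈ B', ⨆ (_ : Disjoint α β),
          (∏ e ∈ α, U e ω) * ∏ e ∈ β, U e ω) ∂P := lintegral_mono fun ω => e2 _
    _ ≤ _ := key
    _ = _ := by
        simp only [e1 A hA, e1 B hB]
        rfl

/-- **BK for exponentials of costs** (van den Berg - Kesten), countably many independent variables in
`[0, ∞]`, two families of finite sets of indices: the expectation of the maximum of the products over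
DISJOINT pairs is at most the product of the expectations. -/
theorem bk [Countable ι] (U : ι → Ω → ℝ≥0∞) (hU : ∀ i, Measurable (U i)) (hind : iIndepFun U P)
    [IsProbabilityMeasure P] (A B : Set (Finset ι)) :
    ∫⁻ ω, best2 A B (fun e => U e ω) ∂P ≤
      (∫⁻ ω, best1 A (fun e => U e ω) ∂P) * ∫⁻ ω, best1 B (fun e => U e ω) ∂P := by
  classical
  obtain ⟨f, hf⟩ := Countable.exists_injective_nat ι
  -- the exhaustion
  have hfin : ∀ n : ℕ, {e | f e ≤ n}.Finite := fun n =>
    (Set.finite_Iic n).preimage hf.injOn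
  set T : ℕ → Finset ι := fun n => (hfin n).toFinset with hT
  have hTmono : Monotone T := by
    intro m n hmn e he
    simp only [hT, Set.Finite.mem_toFinset, Set.mem_ofPred_eq] at he ⊢
    omega
  have hex : ∀ α : Finset ι, ∃ n, α ⊆ T n := by
    intro α
    refine ⟨α.sup f, fun e he => ?_⟩
    simp only [hT, Set.Finite.mem_toFinset, Set.mem_ofPred_eq]
    exact Finset.le_sup (f := f) he
  set A' : ℕ → Set (Finset ι) := fun n => {α | α ∈ A ∧ α ⊆ T n} with hA'
  set B' : ℕ → Set (Finset ι) := fun n => {β | β ∈ B ∧ β ⊆ T n} with hB'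
  have h2 : ∀ u : ι → ℝ≥0∞, best2 A B u = ⨆ n, best2 (A' n) (B' n) u := by
    intro u
    apply le_antisymm
    · conv_lhs => unfold best2
      refine iSup₂_le fun α hα => iSup₂_le fun β hβ => iSup_le fun hd => ?_
      obtain ⟨n, hn⟩ := hex (α ∪ β)
      refine le_iSup_of_le n ?_
      unfold best2
      exact le_iSup₂_of_le α ⟨hα, Finset.union_subset_left hn⟩ (le_iSup₂_of_le β
        ⟨hβ, Finset.union_subset_right hn⟩ (le_iSup_of_le hd le_rfl))
    · refine iSup_le fun n => ?_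
      unfold best2
      refine iSup₂_le fun α hα => iSup₂_le fun β hβ => iSup_le fun hd => ?_
      exact le_iSup₂_of_le α hα.1 (le_iSup₂_of_le β hβ.1 (le_iSup_of_le hd le_rfl))
  have hmono : ∀ ω, Monotone fun n => best2 (A' n) (B' n) (fun e => U e ω) := by
    intro ω m n hmn
    unfold best2
    refine iSup₂_le fun α hα => iSup₂_le fun β hβ => iSup_le fun hd => ?_
    exact le_iSup₂_of_le α ⟨hα.1, hα.2.trans (hTmono hmn)⟩ (le_iSup₂_of_le β
      ⟨hβ.1, hβ.2.trans (hTmono hmn)⟩ (le_iSup_of_le hd le_rfl))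
  have hUm : Measurable fun ω => (fun e => U e ω : ι → ℝ≥0∞) := measurable_pi_lambda _ hU
  simp_rw [h2]
  have hms : ∀ n, Measurable fun ω => best2 (A' n) (B' n) (fun e => U e ω) :=
    fun n => (measurable_best2 _ _).comp hUm
  rw [lintegral_iSup hms (fun m n hmn ω => hmono ω hmn)]
  refine iSup_le fun n => ?_
  refine (bk_fin U hU hind (T n) (A' n) (B' n) (fun α h => h.2) (fun β h => h.2)).trans ?_
  refine mul_le_mul' ?_ ?_
  · refine lintegral_mono fun ω => ?_
    unfold best1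
    exact iSup₂_le fun α hα => le_iSup₂_of_le α hα.1 le_rfl
  · refine lintegral_mono fun ω => ?_
    unfold best1
    exact iSup₂_le fun α hα => le_iSup₂_of_le α hα.1 le_rfl

/-- **BK for three families**: the maximum over pairwise disjoint triples. -/
theorem bk3 [Countable ι] (U : ι → Ω → ℝ≥0∞) (hU : ∀ i, Measurable (U i)) (hind : iIndepFun U P)
    [IsProbabilityMeasure P] (A B C : Set (Finset ι)) :
    ∫⁻ ω, (⨆ α ∈ A, ⨆ β ∈ B, ⨆ γ ∈ C, ⨆ (_ : Disjoint α β ∧ Disjoint α γ ∧ Disjoint β γ),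
        (∏ e ∈ α, U e ω) * (∏ e ∈ β, U e ω) * ∏ e ∈ γ, U e ω) ∂P ≤
      (∫⁻ ω, best1 A (fun e => U e ω) ∂P) * (∫⁻ ω, best1 B (fun e => U e ω) ∂P) *
        ∫⁻ ω, best1 C (fun e => U e ω) ∂P := by
  set D : Set (Finset ι) := {δ | ∃ β ∈ B, ∃ γ ∈ C, Disjoint β γ ∧ δ = β ∪ γ} with hD
  calc ∫⁻ ω, (⨆ α ∈ A, ⨆ β ∈ B, ⨆ γ ∈ C, ⨆ (_ : Disjoint α β ∧ Disjoint α γ ∧ Disjoint β γ),
        (∏ e ∈ α, U e ω) * (∏ e ∈ β, U e ω) * ∏ e ∈ γ, U e ω) ∂P
      ≤ ∫⁻ ω, best2 A D (fun e => U e ω) ∂P := by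
        refine lintegral_mono fun ω => ?_
        refine iSup₂_le fun α hα => iSup₂_le fun β hβ => iSup₂_le fun γ hγ => iSup_le fun hd => ?_
        unfold best2
        refine le_iSup₂_of_le α hα (le_iSup₂_of_le (β ∪ γ) ⟨β, hβ, γ, hγ, hd.2.2, rfl⟩
          (le_iSup_of_le (Finset.disjoint_union_right.2 ⟨hd.1, hd.2.1⟩) ?_))
        rw [Finset.prod_union hd.2.2, mul_assoc]
    _ ≤ (∫⁻ ω, best1 A (fun e => U e ω) ∂P) * ∫⁻ ω, best1 D (fun e => U e ω) ∂P :=
        bk U hU hind A D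
    _ ≤ (∫⁻ ω, best1 A (fun e => U e ω) ∂P) * ∫⁻ ω, best2 B C (fun e => U e ω) ∂P := by
        refine mul_le_mul_right (lintegral_mono fun ω => ?_) _
        unfold best1 best2
        refine iSup₂_le fun δ hδ => ?_
        obtain ⟨β, hβ, γ, hγ, hd, rfl⟩ := hδ
        rw [Finset.prod_union hd]
        exact le_iSup₂_of_le β hβ (le_iSup₂_of_le γ hγ (le_iSup_of_le hd le_rfl))
    _ ≤ (∫⁻ ω, best1 A (fun e => U e ω) ∂P) * ((∫⁻ ω, best1 B (fun e => U e ω) ∂P) *
          ∫⁻ ω, best1 C (fun e => U e ω) ∂P) :=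
        mul_le_mul_right (bk U hU hind B C) _
    _ = _ := (mul_assoc _ _ _).symm

end General

end Pool.Agent.Helper28.PG
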