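import Pool.Agent.Helper51.GP.F2
import Pool.Agent.Helper51.NP.G2

/-!
# GP-H1: the good tube

`tube_moments` with `κ = K₂ (1 + log b)`, `b = bb m L`, `K₂ = 8 (K₀ + 1)`, and Paley-Zygmund.
-/

set_option autoImplicit false
set_option maxHeartbeats 1600000

namespace Pool.Agent.Helper28.PG

open MeasureTheory ProbabilityTheory Filter Pool.Agent.Helper79.GR Pool.Agent.Helper79.GQ
open Pool.Agent.Helper51.NP Pool.Agent.Helper51.GP

/-- larger sets of true weights give smaller passage times -/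
theorem T_cut_anti {d : ℕ} {a b B : ℝ} {c : Edge d → ℝ} (h : Bd a b c) (hB : b ≤ B)
    {S S' : Set (Edge d)} (hS : S ⊆ S') (x y : V d) :
    T (cut S' B c) x y ≤ T (cut S B c) x y := by
  refine Pool.Agent.Helper33.PG.T_mono (cut_bd h hB S') (cut_bd h hB S) (fun e => ?_) x y
  by_cases he : e ∈ S
  · simp only [cut, Set.piecewise, he, hS he, if_true, le_refl]
  · by_cases he' : e ∈ S'
    · simp only [cut, Set.piecewise, he, he', if_true, if_false]
      exact (h.2 e).2.trans hB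
    · simp only [cut, Set.piecewise, he, he', if_false, le_refl]

theorem tub_mono {d : ℕ} {v : F d} {h : F d →L[ℝ] ℝ} {W W' N : ℝ} (hW : W ≤ W') :
    tub v h W N ⊆ tub v h W' N := fun _ he x hx => ⟨(he x hx).1.trans hW, (he x hx).2⟩

/-- the numbers: `κ = K (1 + (m + 1) log L) ≤ L` -/
theorem kappa_le (m : ℕ) (K : ℝ) : ∃ L₀ : ℕ, ∀ L : ℕ, L₀ ≤ L →
    K * (1 + Real.log ((bb m L : ℕ) : ℝ)) ≤ L := by
  have h1 : Tendsto (fun L : ℕ => K * (1 + (m + 1) * Real.log (L : ℝ)) / L) atTop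
      (nhds 0) := by
    have h2 : Tendsto (fun x : ℝ => Real.log x / x) atTop (nhds 0) :=
      Real.isLittleO_log_id_atTop.tendsto_div_nhds_zero
    have h3 : Tendsto (fun x : ℝ => 1 / x) atTop (nhds 0) := by
      simpa using tendsto_inv_atTop_zero (𝕜 := ℝ)
    have h4 : Tendsto (fun x : ℝ => K * (1 / x + (m + 1) * (Real.log x / x))) atTop
        (nhds (K * (0 + (m + 1) * 0))) := (h3.add (h2.const_mul _)).const_mul K
    rw [mul_zero, add_zero, mul_zero] at h4
    have h5 := h4.comp tendsto_natCast_atTop_atTop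
    refine h5.congr fun L => ?_
    show K * (1 / (L : ℝ) + (m + 1) * (Real.log L / L)) = _
    ring
  have h2 := (h1.eventually (gt_mem_nhds (show (0 : ℝ) < 1 by norm_num))).and
    (eventually_gt_atTop 0)
  obtain ⟨L₀, hL₀⟩ := eventually_atTop.1 h2
  refine ⟨L₀, fun L hL => ?_⟩
  obtain ⟨h3, h4⟩ := hL₀ L hL
  have h5 : (0 : ℝ) < L := by exact_mod_cast h4
  rw [div_lt_one h5] at h3
  have h6 : Real.log ((bb m L : ℕ) : ℝ) = (m + 1) * Real.log (L : ℝ) := by
    unfold bb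
    push_cast
    rw [Real.log_pow]
    push_cast
    ring
  rw [h6]
  exact h3.le

theorem le_bb' (m : ℕ) {L : ℕ} : L ≤ bb m L := by
  unfold bb
  exact Nat.le_self_pow (by omega) L

variable {Ω : Type*} [MeasurableSpace Ω] {P : Measure Ω} {d : ℕ} {X : ℕ → Edge d → Ω → ℝ}
  {ν : ℕ → Measure ℝ} {δ : ℕ → ℝ} {a K s : ℝ} {m C : ℕ} {u : F d → ℝ} {v : F d}
  {h : F d →L[ℝ] ℝ}

/-- the second moment method for one tube -/
theorem tube_prob {X : Edge d → Ω → ℝ} {ν : Measure ℝ} {δ b B l κ A z : ℝ}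
    (hE : Env P X ν δ b) (hB : b ≤ B) (S : Set (Edge d)) (hl : 0 < l) (q : V d)
    (hκ : 16 ≤ κ)
    (h1 : Real.exp (3 * κ / 8) / 2 ≤ Zc P X S B l 0 q * Real.exp (l * z))
    (h2 : Z P X (2 * l) 0 q * Real.exp (2 * l * z) ≤ Real.exp (A * κ)) :
    Real.exp (-(A * κ)) ≤ P.real {ω | T (cut S B (cf X ω)) 0 q ≤ z - 1 / l} := by
  have := hE.prob
  set Y : Ω → ℝ := fun ω => Real.exp (-(l * T (cut S B (cf X ω)) 0 q)) * Real.exp (l * z) with hY
  have hYm : Measurable Y :=
    (Real.measurable_exp.comp ((measurable_Tc hE S B 0 q).const_mul l).neg).mul_const _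
  have hYb : ∃ C, ∀ ω, |Y ω| ≤ C := by
    refine ⟨1 * Real.exp (l * z), fun ω => ?_⟩
    have hc := cut_bd (hE.cf_bd ω) hB S
    rw [hY]
    simp only
    rw [abs_mul, abs_of_nonneg (Real.exp_pos _).le, abs_of_nonneg (Real.exp_pos _).le]
    refine mul_le_mul_of_nonneg_right ?_ (Real.exp_pos _).le
    rw [Real.exp_le_one_iff]
    have := mul_nonneg hl.le (T_nonneg' hc 0 q)
    linarith
  set m₁ : ℝ := Real.exp (3 * κ / 8) / 2 with hm₁
  have hm₁pos : 0 < m₁ := by positivity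
  have i1 : ∫ ω, Y ω ∂P = Zc P X S B l 0 q * Real.exp (l * z) := by
    rw [hY]
    simp only
    rw [integral_mul_const]
    rfl
  have i2 : ∫ ω, Y ω ^ 2 ∂P = Zc P X S B (2 * l) 0 q * Real.exp (2 * l * z) := by
    have : ∀ ω, Y ω ^ 2 = Real.exp (-(2 * l * T (cut S B (cf X ω)) 0 q)) *
        Real.exp (2 * l * z) := by
      intro ω
      rw [hY]
      simp only
      rw [mul_pow, ← Real.exp_nat_mul, ← Real.exp_nat_mul]
      congr 1
      · congr 1
        push_cast
        ring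
      · congr 1
        push_cast
        ring
    simp_rw [this]
    rw [integral_mul_const]
    rfl
  have h3 : ∫ ω, Y ω ^ 2 ∂P ≤ Real.exp (A * κ) := by
    rw [i2]
    refine le_trans (mul_le_mul_of_nonneg_right (Zc_le_Z hE hB S (by positivity) 0 q)
      (Real.exp_pos _).le) h2
  have key := Pool.Agent.Helper51.NP.paley hYm hYb hm₁pos (by rw [i1]; exact h1) h3
  have hsub : {ω | m₁ / 2 ≤ Y ω} ⊆ {ω | T (cut S B (cf X ω)) 0 q ≤ z - 1 / l} := by
    intro ω hω
    have h4 : m₁ / 2 ≤ Y ω := hω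
    show T (cut S B (cf X ω)) 0 q ≤ z - 1 / l
    have h5 : Real.exp 1 ≤ m₁ / 2 := by
      rw [hm₁]
      have h6 : (4 : ℝ) * Real.exp 1 ≤ Real.exp (3 * κ / 8) := by
        have h7 : (6 : ℝ) ≤ 3 * κ / 8 := by linarith
        have h8 : Real.exp 6 ≤ Real.exp (3 * κ / 8) := Real.exp_le_exp.2 h7
        have h9 : Real.exp 6 = Real.exp 5 * Real.exp 1 := by
          rw [← Real.exp_add]
          norm_num
        have h10 : (4 : ℝ) ≤ Real.exp 5 := by
          have := Real.add_one_le_exp (5 : ℝ)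
          linarith
        have h11 := mul_le_mul_of_nonneg_right h10 (Real.exp_pos 1).le
        linarith
      linarith
    have h6 : Real.exp 1 ≤ Real.exp (-(l * T (cut S B (cf X ω)) 0 q) + l * z) := by
      rw [Real.exp_add]
      exact h5.trans h4
    have h7 : 1 ≤ -(l * T (cut S B (cf X ω)) 0 q) + l * z := Real.exp_le_exp.1 h6
    have h8 : l * T (cut S B (cf X ω)) 0 q ≤ l * (z - 1 / l) := by
      rw [mul_sub, mul_one_div_cancel hl.ne']
      linarith
    exact le_of_mul_le_mul_left h8 hl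
  refine le_trans ?_ (key.trans (measureReal_mono hsub))
  rw [le_div_iff₀ (by positivity), Real.exp_neg]
  have h4 : (Real.exp (A * κ))⁻¹ * (4 * Real.exp (A * κ)) = 4 := by
    field_simp
  rw [h4, hm₁, div_pow, ← Real.exp_nat_mul]
  have h5 : (12 : ℝ) ≤ ((2 : ℕ) : ℝ) * (3 * κ / 8) := by
    push_cast
    linarith
  have h6 : Real.exp 12 ≤ Real.exp (((2 : ℕ) : ℝ) * (3 * κ / 8)) := Real.exp_le_exp.2 h5
  have h7 : (16 : ℝ) ≤ Real.exp 12 := by
    have h8 : Real.exp 12 = Real.exp 6 * Real.exp 6 := by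
      rw [← Real.exp_add]
      norm_num
    have h9 := Real.add_one_le_exp (6 : ℝ)
    rw [h8]
    nlinarith
  rw [le_div_iff₀ (by norm_num)]
  linarith

theorem good_tube (hF : Fam P X ν δ a m K u) (hv : h v = 1) (hC : 1 ≤ C) :
    ∃ K₁ : ℕ, 1 ≤ K₁ ∧ ∃ L₀ : ℕ, ∀ L : ℕ, L₀ ≤ L → ∀ (l D E : ℝ) (g : F d →L[ℝ] ℝ),
      Pack P X u v h C L (bb m L) l D E g → E / 2 ≤ D → ∃ (q : V d) (N : ℝ),
        1 / ((bb m L : ℕ) ^ K₁ * l ^ 2) ≤ h (rv q) ∧ h (rv q) ≤ Real.exp (K₁ * L) ∧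
        tr v h (rv q) ≤ (bb m L : ℕ) ^ K₁ / l ∧
        (1 / ((bb m L : ℕ) : ℝ)) ^ K₁ ≤
          P.real {ω | T (cut (tub v h ((bb m L : ℕ) ^ K₁ / l) N) (bb m L)
            (cf (X (bb m L)) ω)) 0 q ≤ g (rv q) - 1 / l} := by
  obtain ⟨K₀, hK₀, L₁, H⟩ := tube_moments (C := C) hF hv hC
  set K₂ : ℕ := 8 * (K₀ + 1) with hK₂
  obtain ⟨L₂, hL₂⟩ := kappa_le m K₂
  refine ⟨2 * K₀ * K₂ + C + K₀ + 4 * d + 8, by omega, max (max L₁ L₂) 3, ?_⟩
  intro L hL l D E g hP hD
  have hLL₁ : L₁ ≤ L := (le_max_left _ _).trans ((le_max_left _ _).trans hL)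
  have hLL₂ : L₂ ≤ L := (le_max_right _ _).trans ((le_max_left _ _).trans hL)
  have hL3 : 3 ≤ L := (le_max_right _ _).trans hL
  set b : ℕ := bb m L with hb
  have hb3 : 3 ≤ b := hL3.trans (le_bb' m)
  have hbr : (3 : ℝ) ≤ b := by exact_mod_cast hb3
  have hb1 : (1 : ℝ) ≤ b := by linarith
  have hlogb : 1 ≤ Real.log b := by
    rw [Real.le_log_iff_exp_le (by positivity)]
    have := Real.exp_one_lt_d9
    linarith
  have hLr : (3 : ℝ) ≤ L := by exact_mod_cast hL3
  have hK₀r : (1 : ℝ) ≤ K₀ := by exact_mod_cast hK₀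
  have hK₂r : (K₂ : ℝ) = 8 * (K₀ + 1) := by rw [hK₂]; push_cast; ring
  set κ : ℝ := K₂ * (1 + Real.log b) with hκ
  have hκ16 : 16 ≤ κ := by
    rw [hκ, hK₂r]
    nlinarith
  have hκ1 : 1 ≤ κ := by linarith
  have hκL : κ ≤ L := hL₂ L hLL₂
  obtain ⟨q, q1, q2, q3, q4, q5, q6⟩ := H L hLL₁ l D E g hP κ hκ1 hκL
  have hl := hP.lpos
  have hl1 : l ≤ 1 := hP.lup.trans (pow_le_one₀ (by norm_num) (by norm_num))
  have hE0 : 0 < E := by
    have h1 := hP.D0
    have h2 := hP.DE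
    have h3 : 0 < l ^ (2 * d + 2) := by positivity
    linarith
  have hlE : 0 < l * E := mul_pos hl hE0
  refine ⟨q, K₀ * κ / (l * E), ?_, ?_, ?_, ?_⟩
  · -- the height is large
    refine le_trans ?_ q1
    rw [div_le_div_iff₀ (by positivity) (by positivity)]
    have h1 : E ≤ b ^ C * l := hP.EC
    have h2 : (b : ℝ) ^ (C + 1) ≤ (b : ℝ) ^ (2 * K₀ * K₂ + C + K₀ + 4 * d + 8) :=
      pow_le_pow_right₀ hb1 (by omega)
    have h3 : 2 * (l * E) ≤ (b : ℝ) ^ (C + 1) * l ^ 2 := by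
      have h4 : l * E ≤ l * (b ^ C * l) := mul_le_mul_of_nonneg_left h1 hl.le
      have h5 : 0 < (b : ℝ) ^ C * l ^ 2 := by positivity
      have h6 : (b : ℝ) ^ (C + 1) * l ^ 2 = b * (b ^ C * l ^ 2) := by ring
      rw [h6]
      nlinarith
    have h4 : (b : ℝ) ^ (C + 1) * l ^ 2 ≤
        (b : ℝ) ^ (2 * K₀ * K₂ + C + K₀ + 4 * d + 8) * l ^ 2 :=
      mul_le_mul_of_nonneg_right h2 (by positivity)
    have h5 : 0 < (b : ℝ) ^ (2 * K₀ * K₂ + C + K₀ + 4 * d + 8) * l ^ 2 := by positivity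
    nlinarith
  · -- the height is not too large
    refine q2.trans ?_
    have h1 : (1 / 4 : ℝ) ^ (L * (2 * d + 3)) ≤ l * E := by
      have h2 : l ^ (2 * d + 2) ≤ E := by
        have := hP.D0
        have := hP.DE
        linarith
      have h3 : l ^ (2 * d + 3) ≤ l * E := by
        rw [pow_succ']
        exact mul_le_mul_of_nonneg_left h2 hl.le
      refine le_trans ?_ h3
      rw [pow_mul]
      exact pow_le_pow_left₀ (by positivity) hP.llo _
    have h4 : Real.exp (-(2 * (L * (2 * d + 3)))) ≤ l * E := by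
      refine le_trans ?_ h1
      have h5 : (1 / 4 : ℝ) ^ (L * (2 * d + 3)) = Real.exp (-(Real.log 4 * (L * (2 * d + 3)))) := by
        rw [← Real.exp_log (show (0 : ℝ) < (1 / 4 : ℝ) ^ (L * (2 * d + 3)) by positivity),
          Real.log_pow, one_div, Real.log_inv]
        congr 1
        push_cast
        ring
      rw [h5]
      refine Real.exp_le_exp.2 (neg_le_neg ?_)
      have h6 : Real.log 4 ≤ 2 := by
        have h7 : Real.log 4 = 2 * Real.log 2 := by
          rw [show (4 : ℝ) = 2 ^ 2 by norm_num, Real.log_pow]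
          push_cast
          ring
        have := Real.log_two_lt_d9
        rw [h7]
        linarith
      exact mul_le_mul_of_nonneg_right h6 (by positivity)
    rw [div_le_iff₀ hlE]
    have h7 : 2 * κ ≤ Real.exp (2 * L) := by
      have := Real.add_one_le_exp (2 * (L : ℝ))
      linarith
    have h8 : Real.exp (2 * L) * 1 ≤
        Real.exp (((2 * K₀ * K₂ + C + K₀ + 4 * d + 8 : ℕ) : ℝ) * L) *
          Real.exp (-(2 * (L * (2 * d + 3)))) := by
      rw [mul_one, ← Real.exp_add]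
      refine Real.exp_le_exp.2 ?_
      push_cast
      have : (0 : ℝ) ≤ (2 * K₀ * K₂ + C + K₀) * L := by positivity
      nlinarith
    calc 2 * κ ≤ Real.exp (2 * L) * 1 := by rw [mul_one]; exact h7
      _ ≤ _ := h8
      _ ≤ _ := mul_le_mul_of_nonneg_left h4 (Real.exp_pos _).le
  · refine q3.trans ?_
    exact div_le_div_of_nonneg_right (pow_le_pow_right₀ hb1 (by omega)) hl.le
  · -- the probability
    have hE' := hF.env b (by omega)
    have p1 : Real.exp (3 * κ / 8) / 2 ≤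
        Zc P (X b) (tub v h ((b : ℝ) ^ K₀ / l) (K₀ * κ / (l * E))) b l 0 q *
          Real.exp (l * g (rv q)) := by
      have h1 : Real.exp (κ / 2) ≤ Real.exp (κ * D / E) := by
        refine Real.exp_le_exp.2 ?_
        rw [div_le_div_iff₀ (by norm_num) hE0]
        have : κ * (E / 2) ≤ κ * D := mul_le_mul_of_nonneg_left hD (by linarith)
        nlinarith
      have h2 : Real.exp (κ / 2) / 2 ≤ (b : ℝ) ^ K₀ *
          (Zc P (X b) (tub v h ((b : ℝ) ^ K₀ / l) (K₀ * κ / (l * E))) b l 0 q *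
            Real.exp (l * g (rv q))) := by
        refine le_trans ?_ q4
        have h3 : 1 ≤ Real.exp (κ / 2) := Real.one_le_exp (by linarith)
        linarith
      have h3 : (b : ℝ) ^ K₀ ≤ Real.exp (κ / 8) := by
        rw [← Real.exp_log (show (0 : ℝ) < (b : ℝ) ^ K₀ by positivity), Real.log_pow]
        refine Real.exp_le_exp.2 ?_
        rw [hκ, hK₂r]
        nlinarith
      have h4 : (b : ℝ) ^ K₀ *
          (Zc P (X b) (tub v h ((b : ℝ) ^ K₀ / l) (K₀ * κ / (l * E))) b l 0 q *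
            Real.exp (l * g (rv q))) ≤ Real.exp (κ / 8) *
          (Zc P (X b) (tub v h ((b : ℝ) ^ K₀ / l) (K₀ * κ / (l * E))) b l 0 q *
            Real.exp (l * g (rv q))) :=
        mul_le_mul_of_nonneg_right h3
          (mul_pos (Zc_pos hE' le_rfl _ 0 q) (Real.exp_pos _)).le
      have h5 : Real.exp (κ / 2) = Real.exp (κ / 8) * Real.exp (3 * κ / 8) := by
        rw [← Real.exp_add]
        congr 1
        ring
      have h6 : Real.exp (κ / 8) * (Real.exp (3 * κ / 8) / 2) ≤ Real.exp (κ / 8) *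
          (Zc P (X b) (tub v h ((b : ℝ) ^ K₀ / l) (K₀ * κ / (l * E))) b l 0 q *
            Real.exp (l * g (rv q))) := by
        rw [h5] at h2
        linarith
      exact le_of_mul_le_mul_left h6 (Real.exp_pos _)
    have p2 := tube_prob hE' le_rfl (tub v h ((b : ℝ) ^ K₀ / l) (K₀ * κ / (l * E))) hl q hκ16 p1
      q6
    refine le_trans ?_ (p2.trans (measureReal_mono ?_ ?_))
    · -- the numbers
      rw [one_div, inv_pow, ← Real.exp_log (show (0 : ℝ) < (b : ℝ) ^
        (2 * K₀ * K₂ + C + K₀ + 4 * d + 8) by positivity), ← Real.exp_neg, Real.log_pow]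
      refine Real.exp_le_exp.2 (neg_le_neg ?_)
      rw [hκ]
      push_cast
      have h1 : (K₀ : ℝ) * (K₂ * (1 + Real.log b)) ≤ 2 * K₀ * K₂ * Real.log b := by
        have : (0 : ℝ) ≤ K₀ * K₂ := by positivity
        nlinarith
      have h2 : (0 : ℝ) ≤ (C + K₀ + 4 * d + 8) * Real.log b := by positivity
      linarith
    · intro ω hω
      have h1 : T (cut (tub v h ((b : ℝ) ^ K₀ / l) (K₀ * κ / (l * E))) b (cf (X b) ω)) 0 q ≤
        g (rv q) - 1 / l := hω
      show T _ 0 q ≤ _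
      refine le_trans (T_cut_anti (hE'.cf_bd ω) le_rfl (tub_mono ?_) 0 q) h1
      exact div_le_div_of_nonneg_right (pow_le_pow_right₀ hb1 (by omega)) hl.le
    · have := hE'.prob
      exact measure_ne_top _ _

end Pool.Agent.Helper28.PG
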