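import Mathlib

/-!
# Project PG (MP_13b103_pr, limit shapes are not polytopes): block E, the choice of scale and tilt

`D k η` is `D_λ(η)` for `λ = 2 ^ (-k)`; `Dt k η = D k η + 2 ^ (-A k)`.  A (near-)maximum of
`log Dt k η + γ k - β ‖η‖ ^ 2` over `k₀ ≤ k ≤ 2 k₀`, `‖η‖ ≤ r` is taken at some `k > k₀`,
`‖η‖ ≤ r / 2`, and comparing it with `(k, η + δ e)` and `(k - 1, η + δ e)` gives the claim.
-/

set_option autoImplicit false

namespace Pool.Agent.Helper28.PG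

variable {E : Type*} [SeminormedAddCommGroup E] [NormedSpace ℝ E]

/-- a near-maximum of a bounded function over a nonempty set -/
theorem near_max {α : Type*} (S : Set α) (hS : S.Nonempty) (f : α → ℝ) (M : ℝ)
    (hM : ∀ x ∈ S, f x ≤ M) (ε : ℝ) (hε : 0 < ε) : ∃ x ∈ S, ∀ y ∈ S, f y ≤ f x + ε := by
  have hbdd : BddAbove (f '' S) := ⟨M, by rintro _ ⟨x, hx, rfl⟩; exact hM x hx⟩
  have hne : (f '' S).Nonempty := hS.image f
  obtain ⟨_, ⟨x, hx, rfl⟩, hlt⟩ := exists_lt_of_lt_csSup hne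
    (show sSup (f '' S) - ε < sSup (f '' S) by linarith)
  refine ⟨x, hx, fun y hy => ?_⟩
  have := le_csSup hbdd ⟨y, hy, rfl⟩
  linarith

/-- **Block E.**  `D k η` is `D_λ(η)` at `λ = 2 ^ (-k)`. -/
theorem pigeon (D : ℕ → E → ℝ) (A : ℕ) (C r : ℝ) (hr : 0 < r)
    (h0 : ∀ k η, ‖η‖ ≤ r → 0 ≤ D k η) (hC : ∀ k η, ‖η‖ ≤ r → D k η ≤ C) :
    ∃ c : ℝ, 0 < c ∧ c ≤ r / 2 ∧ ∃ K : ℕ, ∀ k₀ : ℕ, K ≤ k₀ → ∃ k : ℕ, k₀ < k ∧ k ≤ 2 * k₀ ∧
      ∃ η : E, ‖η‖ ≤ r / 2 ∧ ∀ e : E, ‖e‖ ≤ 1 →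
        D k (η + (c / k₀) • e) + 2⁻¹ ^ (A * k) ≤
          Real.exp 1 * (D k η + 2⁻¹ ^ (A * k)) ∧
        D (k - 1) (η + (c / k₀) • e) + 2⁻¹ ^ (A * (k - 1)) ≤
          Real.exp (2 * A + 2) * (D k η + 2⁻¹ ^ (A * k)) := by
  have hC0 : 0 ≤ C := (h0 0 0 (by simpa using hr.le)).trans (hC 0 0 (by simpa using hr.le))
  set L : ℝ := Real.log (C + 1) with hL
  have hL0 : 0 ≤ L := Real.log_nonneg (by linarith)
  set G : ℕ → E → ℝ := fun k η => Real.log (D k η + 2⁻¹ ^ (A * k)) with hG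
  have hp : ∀ k η, ‖η‖ ≤ r → (2⁻¹ : ℝ) ^ (A * k) ≤ D k η + 2⁻¹ ^ (A * k) := fun k η h => by
    have := h0 k η h
    linarith
  have hpos : ∀ k η, ‖η‖ ≤ r → 0 < D k η + 2⁻¹ ^ (A * k) := fun k η h =>
    lt_of_lt_of_le (by positivity) (hp k η h)
  have hGu : ∀ k η, ‖η‖ ≤ r → G k η ≤ L := by
    intro k η h
    refine Real.log_le_log (hpos k η h) ?_
    have h1 : (2⁻¹ : ℝ) ^ (A * k) ≤ 1 := pow_le_one₀ (by norm_num) (by norm_num)
    have h2 := hC k η h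
    linarith
  have hl2 : Real.log 2 ≤ 1 := by
    have := Real.log_two_lt_d9
    linarith
  have hl2' : 0 ≤ Real.log 2 := Real.log_nonneg (by norm_num)
  have hGl : ∀ (k : ℕ) (η : E), ‖η‖ ≤ r → -((A : ℝ) * k) ≤ G k η := by
    intro k η h
    have h1 : Real.log ((2⁻¹ : ℝ) ^ (A * k)) ≤ G k η :=
      Real.log_le_log (by positivity) (hp k η h)
    rw [Real.log_pow, Real.log_inv] at h1
    push_cast at h1
    have h3 : (0 : ℝ) ≤ (A : ℝ) * k := by positivity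
    nlinarith
  set B : ℝ := 4 * (L + 2 * A + 1) with hB
  have hB0 : 0 < B := by positivity
  set γ : ℝ := 2 * A + 1 with hγ
  refine ⟨r / (4 * B), by positivity, ?_, ⌈L + 1⌉₊ + 1, ?_⟩
  · have hB4 : 4 ≤ B := by
      rw [hB]
      have : (0 : ℝ) ≤ A := Nat.cast_nonneg _
      linarith
    rw [div_le_div_iff₀ (by positivity) (by norm_num)]
    nlinarith
  intro k₀ hk₀
  have hk0 : L + 1 < k₀ := by
    have h1 := Nat.le_ceil (L + 1)
    have h2 : ((⌈L + 1⌉₊ + 1 : ℕ) : ℝ) ≤ k₀ := by exact_mod_cast hk₀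
    push_cast at h2
    linarith
  have hk01 : (1 : ℝ) ≤ k₀ := by linarith
  have hA0 : (0 : ℝ) ≤ A := Nat.cast_nonneg _
  set β : ℝ := B * k₀ / r ^ 2 with hβ
  have hβ0 : 0 < β := by positivity
  set Φ : ℕ × E → ℝ := fun p => G p.1 p.2 + γ * p.1 - β * ‖p.2‖ ^ 2 with hΦ
  set S : Set (ℕ × E) := {p | k₀ ≤ p.1 ∧ p.1 ≤ 2 * k₀ ∧ ‖p.2‖ ≤ r} with hS
  obtain ⟨⟨k, η⟩, hkη, hmax⟩ := near_max S
    ⟨(k₀, 0), le_refl _, by omega, by simpa using hr.le⟩ Φ (L + γ * (2 * k₀))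
    (by
      rintro ⟨k, η⟩ ⟨h1, h2, h3⟩
      have h4 := hGu k η h3
      have h5 : (k : ℝ) ≤ 2 * k₀ := by exact_mod_cast h2
      have h6 : 0 ≤ β * ‖η‖ ^ 2 := by positivity
      have h7 : 0 ≤ γ := by positivity
      have h8 := mul_le_mul_of_nonneg_left h5 h7
      simp only [hΦ]
      linarith) (1 / 2) (by norm_num)
  obtain ⟨hk1, hk2, hη⟩ := hkη
  simp only at hk1 hk2 hη
  have hk2' : (k : ℝ) ≤ 2 * k₀ := by exact_mod_cast hk2
  have hk1' : (k₀ : ℝ) ≤ k := by exact_mod_cast hk1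
  -- (i) k > k₀
  have hkk : k₀ < k := by
    rcases hk1.lt_or_eq with h | h
    · exact h
    exfalso
    have h1 := hmax (2 * k₀, 0) ⟨by simp only; omega, le_refl _, by simpa using hr.le⟩
    simp only [hΦ] at h1
    have h2 := hGl (2 * k₀) (0 : E) (by simpa using hr.le)
    have h3 := hGu k η hη
    have h4 : 0 ≤ β * ‖η‖ ^ 2 := by positivity
    rw [← h] at h1 h3
    push_cast at h1 h2
    rw [norm_zero] at h1
    have h5 : γ * (2 * (k₀ : ℝ)) = γ * k₀ + γ * k₀ := by ring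
    have h6 : γ * (k₀ : ℝ) = 2 * A * k₀ + k₀ := by rw [hγ]; ring
    have h7 : β * (0 : ℝ) ^ 2 = 0 := by ring
    nlinarith
  -- (ii) ‖η‖ ≤ r / 2
  have hηr : ‖η‖ ≤ r / 2 := by
    have h1 := hmax (k, 0) ⟨hk1, hk2, by simpa using hr.le⟩
    simp only [hΦ] at h1
    have h2 := hGl k (0 : E) (by simpa using hr.le)
    have h3 := hGu k η hη
    rw [norm_zero] at h1
    have h4 : β * ‖η‖ ^ 2 ≤ L + A * (2 * k₀) + 1 / 2 := by
      have h5 : (A : ℝ) * k ≤ A * (2 * k₀) := mul_le_mul_of_nonneg_left hk2' hA0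
      have h7 : β * (0 : ℝ) ^ 2 = 0 := by ring
      linarith
    have h5 : L + A * (2 * k₀) + 1 / 2 ≤ β * (r / 2) ^ 2 := by
      have h6 : β * (r / 2) ^ 2 = B * k₀ / 4 := by
        rw [hβ]
        field_simp
        ring
      rw [h6, hB]
      nlinarith
    have h6 : ‖η‖ ^ 2 ≤ (r / 2) ^ 2 := le_of_mul_le_mul_left (h4.trans h5) hβ0
    exact (pow_le_pow_iff_left₀ (norm_nonneg _) (by positivity) two_ne_zero).1 h6
  refine ⟨k, hkk, hk2, η, hηr, ?_⟩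
  intro e he
  set δ : ℝ := r / (4 * B) / k₀ with hδ
  have hδ0 : 0 < δ := by positivity
  have hB4 : 4 ≤ B := by
    rw [hB]
    linarith
  have hδr : δ ≤ r / 16 := by
    rw [hδ, div_div, div_le_div_iff₀ (by positivity) (by norm_num)]
    have h1 : 4 ≤ B * k₀ := by nlinarith
    nlinarith
  have hnorm : ‖η + δ • e‖ ≤ ‖η‖ + δ := by
    refine (norm_add_le _ _).trans ?_
    rw [norm_smul, Real.norm_of_nonneg hδ0.le]
    have := mul_le_mul_of_nonneg_left he hδ0.le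
    linarith
  have hnr : ‖η + δ • e‖ ≤ r := by linarith
  have hsq : β * ‖η + δ • e‖ ^ 2 ≤ β * ‖η‖ ^ 2 + 1 / 2 := by
    have h1 : ‖η + δ • e‖ ^ 2 ≤ ‖η‖ ^ 2 + (r * δ + δ ^ 2) := by
      have h2 : ‖η + δ • e‖ ^ 2 ≤ (‖η‖ + δ) ^ 2 := by
        exact pow_le_pow_left₀ (norm_nonneg _) hnorm 2
      have h3 : 2 * ‖η‖ * δ ≤ r * δ := mul_le_mul_of_nonneg_right (by linarith) hδ0.le
      nlinarith
    have h2 : β * (r * δ + δ ^ 2) ≤ 1 / 2 := by
      have h3 : r * δ + δ ^ 2 ≤ 2 * (r * δ) := by nlinarith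
      have h4 : β * (2 * (r * δ)) = 1 / 2 := by
        rw [hβ, hδ]
        field_simp
        ring
      calc β * (r * δ + δ ^ 2) ≤ β * (2 * (r * δ)) := mul_le_mul_of_nonneg_left h3 hβ0.le
        _ = 1 / 2 := h4
    have h3 := mul_le_mul_of_nonneg_left h1 hβ0.le
    nlinarith
  constructor
  · have h1 := hmax (k, η + δ • e) ⟨hk1, hk2, hnr⟩
    simp only [hΦ] at h1
    have h2 : G k (η + δ • e) ≤ 1 + G k η := by linarith
    have h3 := Real.exp_le_exp.2 h2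
    rw [Real.exp_add, hG] at h3
    simp only at h3
    rwa [Real.exp_log (hpos _ _ hnr), Real.exp_log (hpos _ _ hη)] at h3
  · have hk1'' : ((k - 1 : ℕ) : ℝ) = k - 1 := by
      rw [Nat.cast_sub (by omega)]
      simp
    have h1 := hmax (k - 1, η + δ • e) ⟨by simp only; omega, by simp only; omega, hnr⟩
    simp only [hΦ] at h1
    rw [hk1''] at h1
    have h2 : G (k - 1) (η + δ • e) ≤ (2 * A + 2) + G k η := by
      have h5 : γ * ((k : ℝ) - 1) = γ * k - (2 * A + 1) := by rw [hγ]; ring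
      linarith
    have h3 := Real.exp_le_exp.2 h2
    rw [Real.exp_add, hG] at h3
    simp only at h3
    rwa [Real.exp_log (hpos _ _ hnr), Real.exp_log (hpos _ _ hη)] at h3

end Pool.Agent.Helper28.PG
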